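import Pool.Agent.Helper57.SS.Goals

set_option autoImplicit false

namespace Pool.Agent.Helper88.SS

open MeasureTheory Filter Topology Pool.Agent.Helper57.SS

theorem gSML : G_SML := by
  intro hB ν _ ε t hat hne η hη
  obtain ⟨-, h2, h3, -, -, -⟩ := hB ν ε ε
  have hna : NullSingletonClass ν := ⟨hat⟩
  have hinf : {x | x - t ∈ Sh ν ε}.Infinite := by
    intro hfin
    exact hne (hfin.measure_zero ν)
  obtain ⟨T, -, hT, hcov⟩ := finite_cover_balls_of_compact
    (isCompact_univ : IsCompact (Set.univ : Set Ci)) (half_pos hη)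
  have hc : ∀ x : Ci, ∃ c ∈ T, dist x c < η / 2 := by
    intro x
    have := hcov (Set.mem_univ x)
    simp only [Set.mem_iUnion, Metric.mem_ball, exists_prop] at this
    exact this
  choose c hcT hcd using hc
  obtain ⟨x, hx, y, hy, hxy, hcc⟩ := hinf.exists_ne_map_eq_of_mapsTo
    (fun x _ => hcT x) hT
  have hd : dist x y < η := by
    have e1 := hcd x
    have e2 := hcd y
    rw [← hcc, dist_comm] at e2
    calc dist x y ≤ dist x (c x) + dist (c x) y := dist_triangle _ _ _
      _ < η / 2 + η / 2 := add_lt_add e1 e2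
      _ = η := by ring
  have hd2 : x - y ∈ Sh ν (2 * ε) := by
    have e1 := h3 (x - t) (-(y - t)) hx (h2 _ hy)
    have e2 : x - t + -(y - t) = x - y := by abel
    rw [e2] at e1
    have e3 : ε + ε = 2 * ε := by ring
    rwa [e3] at e1
  have hd3 : y - x ∈ Sh ν (2 * ε) := by
    have := (hB ν (2 * ε) ε).2.1 _ hd2
    rwa [neg_sub] at this
  have hd0 : x - y ≠ 0 := sub_ne_zero.2 hxy
  have hnorm : ‖x - y‖ < η := by rwa [← dist_eq_norm]
  obtain ⟨r, hr⟩ := QuotientAddGroup.mk_surjective (x - y)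
  have hr' : ((r : ℝ) : Ci) = x - y := hr
  set y0 : ℝ := r - round r with hy0
  have hy1 : ((y0 : ℝ) : Ci) = x - y := by
    rw [hy0, AddCircle.coe_sub, hr']
    have : (((round r : ℤ) : ℝ) : Ci) = 0 := by
      rw [AddCircle.coe_eq_zero_iff]
      exact ⟨round r, by simp⟩
    rw [this, sub_zero]
  have hy2 : |y0| = ‖x - y‖ := by
    rw [← hr', UnitAddCircle.norm_eq]
  have hy3 : y0 ≠ 0 := by
    intro h
    rw [h] at hy1
    apply hd0
    rw [← hy1]
    simp
  rcases lt_or_gt_of_ne hy3 with h | h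
  · refine ⟨-y0, by linarith, ?_, ?_⟩
    · rw [← hy2, abs_of_neg h] at hnorm
      exact hnorm.le
    · rw [AddCircle.coe_neg, hy1, neg_sub]
      exact hd3
  · refine ⟨y0, h, ?_, ?_⟩
    · rw [← hy2, abs_of_pos h] at hnorm
      exact hnorm.le
    · rw [hy1]
      exact hd2

end Pool.Agent.Helper88.SS
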