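import Pool.Agent.Helper57.SS.Goals

set_option autoImplicit false

namespace Pool.Agent.Helper88.SS

open MeasureTheory Filter Topology Pool.Agent.Helper57.SS

theorem zp_eq_pow {α : Type} [MeasurableSpace α] (R : α ≃ᵐ α) (m : ℤ) (x : α) :
    zp R m x = ((R.toEquiv : Equiv.Perm α) ^ m) x := by
  cases m with
  | ofNat n =>
    show (⇑R)^[n] x = ((R.toEquiv : Equiv.Perm α) ^ (Int.ofNat n)) x
    have h : ((R.toEquiv : Equiv.Perm α) ^ (Int.ofNat n)) = (R.toEquiv : Equiv.Perm α) ^ n :=
      zpow_natCast _ n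
    rw [h, ← Equiv.Perm.iterate_eq_pow]
    rfl
  | negSucc n =>
    show (⇑R.symm)^[n + 1] x = ((R.toEquiv : Equiv.Perm α) ^ (Int.negSucc n)) x
    rw [zpow_negSucc, ← inv_pow, ← Equiv.Perm.iterate_eq_pow]
    rfl

theorem gZP : G_ZP := by
  intro α _ R
  refine ⟨fun x => rfl, fun n x => rfl, fun n x => ?_, fun m n x => ?_, fun m => ?_,
    fun μ hR m => ?_, fun T hT m x => ?_⟩
  · rw [zp_eq_pow, zpow_neg, zpow_natCast, ← inv_pow, ← Equiv.Perm.iterate_eq_pow]
    rfl
  · rw [zp_eq_pow, zp_eq_pow, zp_eq_pow, zpow_add, Equiv.Perm.mul_apply]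
  · cases m with
    | ofNat n => exact R.measurable.iterate n
    | negSucc n => exact R.symm.measurable.iterate (n + 1)
  · cases m with
    | ofNat n => exact hR.iterate n
    | negSucc n => exact (hR.symm R).iterate (n + 1)
  · have hT' : ∀ x, R.symm (T x) = T (R.symm x) := by
      intro x
      apply R.injective
      rw [hT, R.apply_symm_apply, R.apply_symm_apply]
    cases m with
    | ofNat n =>
      show (⇑R)^[n] (T x) = T ((⇑R)^[n] x)
      have h : Function.Commute (⇑R) T := hT
      exact (h.iterate_left n) x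
    | negSucc n =>
      show (⇑R.symm)^[n + 1] (T x) = T ((⇑R.symm)^[n + 1] x)
      have h : Function.Commute (⇑R.symm) T := hT'
      exact (h.iterate_left (n + 1)) x

end Pool.Agent.Helper88.SS
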